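import Mathlib

set_option autoImplicit false

namespace Pool.Agent.Results.MP_96ce97_co.Half

open Pointwise

def Good (α : ℝ) : Prop :=
  ∃ N k : ℕ, ∀ (R : Type) [CommRing R] [Fintype R], N ≤ Nat.card R →
    ∀ E : Set R, α * Nat.card R ≤ E.ncard →
      ∃ R₀ : NonUnitalSubring R, (R₀ : Set R) ⊆ (E - E) * (E - E) ∧
        (Nat.card R : ℝ) / Nat.card R₀ ≤ k

theorem result (α : ℝ) : Good α ↔ 1 / 2 < α := by
  constructor
  · rintro ⟨N, k, h⟩
    by_contra hα
    push Not at hα
    let M := Fin (N + k) → ZMod 2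
    let R := TrivSqZeroExt (ZMod 2) M
    have fin : Finite R := inferInstanceAs (Finite (ZMod 2 × M))
    have : Fintype R := Fintype.ofFinite R
    have cM : Nat.card M = 2 ^ (N + k) := by simp [M]
    have cR : Nat.card R = 2 * 2 ^ (N + k) := by
      rw [← cM]
      exact (Nat.card_prod (ZMod 2) M).trans (by simp)
    have big : N + k < 2 ^ (N + k) := Nat.lt_two_pow_self
    have cE : (Set.range (TrivSqZeroExt.inr : M → R)).ncard = 2 ^ (N + k) := by
      rw [Set.ncard_range_of_injective TrivSqZeroExt.inr_injective, cM]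
    obtain ⟨R₀, h1, h2⟩ := h R (by omega) (Set.range (TrivSqZeroExt.inr : M → R)) (by
      rw [cE, cR]; push_cast
      nlinarith [show (0 : ℝ) < 2 ^ (N + k) by positivity])
    have z : ∀ x : R₀, x = 0 := by
      rintro ⟨x, hx⟩
      obtain ⟨_, ⟨_, ⟨a, rfl⟩, _, ⟨b, rfl⟩, rfl⟩, _, ⟨_, ⟨c, rfl⟩, _, ⟨d, rfl⟩, rfl⟩, e⟩ := h1 hx
      refine Subtype.ext (e.symm.trans ?_)
      show (TrivSqZeroExt.inr a - TrivSqZeroExt.inr b : R) *
        (TrivSqZeroExt.inr c - TrivSqZeroExt.inr d) = 0
      simp only [sub_mul, mul_sub, R, TrivSqZeroExt.inr_mul_inr, sub_zero]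
    have : Nat.card R₀ = 1 := Nat.card_eq_one_iff_exists.2 ⟨0, z⟩
    rw [this, cR, Nat.cast_one, div_one, Nat.cast_le] at h2
    omega
  · intro hα
    refine ⟨0, 1, fun R _ _ _ E hE => ⟨⊤, fun x _ => ?_, ?_⟩⟩
    · have pos : (0 : ℝ) < Nat.card R := by exact_mod_cast Nat.card_pos
      have all : ∀ y : R, y ∈ E - E := by
        intro y
        by_contra hy
        have dj : Disjoint E ((fun e => y + e) '' E) := by
          rw [Set.disjoint_left]
          rintro a ha ⟨e, he, rfl⟩
          exact hy ⟨_, ha, e, he, by simp⟩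
        have h1 := Set.ncard_union_eq dj
        rw [Set.ncard_image_of_injective _ (add_right_injective y)] at h1
        have h2 := Set.ncard_le_card (E ∪ (fun e => y + e) '' E)
        have h3 : (E.ncard : ℝ) + E.ncard ≤ Nat.card R := by exact_mod_cast h1 ▸ h2
        nlinarith
      exact ⟨1, all 1, x, all x, one_mul x⟩
    · have : Nat.card (⊤ : NonUnitalSubring R) = Nat.card R :=
        Nat.card_congr (Equiv.Set.univ R)
      rw [this, Nat.cast_one]
      exact div_self_le_one _

end Pool.Agent.Results.MP_96ce97_co.Half
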